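import Pool.Agent.H889R3.SA.Stmts

/-! Task SA.TaskC of project H889-SA (helper217). -/

set_option autoImplicit false

open Finset

namespace Pool.Agent.H217R3.SAC

variable {ι : Type*} [Fintype ι] [DecidableEq ι]

/-- abstract version of `GG` -/
noncomputable def GA (c : ℕ → ℝ) (A : Finset ι) (F : Finset ι → ℝ) : ℝ :=
  ∑ T : Finset ι, if T.Nonempty ∧ T ⊆ A then c T.card * F T ^ 2 else 0

lemma sum_split' (a : ι) (f : Finset ι → ℝ) :
    ∑ S, f S = ∑ S, ((if a ∈ S then 0 else f S) + (if a ∈ S then 0 else f (insert a S))) := by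
  rw [Finset.sum_add_distrib]
  have h1 : ∑ S, f S = ∑ S, (if a ∈ S then 0 else f S) + ∑ S, (if a ∈ S then f S else 0) := by
    rw [← Finset.sum_add_distrib]
    refine Finset.sum_congr rfl fun S _ => ?_
    split_ifs <;> simp
  rw [h1]
  congr 1
  rw [← Finset.sum_filter]
  have h2 : ∑ S : Finset ι, (if a ∈ S then 0 else f (insert a S))
      = ∑ S ∈ Finset.univ.filter (fun S : Finset ι => a ∉ S), f (insert a S) := by
    rw [Finset.sum_filter]
    refine Finset.sum_congr rfl fun S _ => ?_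
    split_ifs <;> simp_all
  rw [h2]
  symm
  refine Finset.sum_bij (fun S _ => insert a S) ?_ ?_ ?_ ?_
  · intro S _; simp
  · intro S hS S' hS' h
    simp only [mem_filter, mem_univ, true_and] at hS hS'
    have := congrArg (fun U => U.erase a) h
    simpa [Finset.erase_insert hS, Finset.erase_insert hS'] using this
  · intro S hS
    simp only [mem_filter, mem_univ, true_and] at hS
    exact ⟨S.erase a, by simp, Finset.insert_erase hS⟩
  · intro S _; rfl

lemma step (c : ℕ → ℝ) (hc : c 0 = 1) (A : Finset ι) (j : ι) (hj : j ∈ A)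
    (F Ft Ff : Finset ι → ℝ) (ht : ∀ T, j ∉ T → Ft T = F T + F (insert j T))
    (hf : ∀ T, j ∉ T → Ff T = F T - F (insert j T)) :
    (GA c (A.erase j) Ft + GA c (A.erase j) Ff) / 2 + F {j} ^ 2 =
      ∑ T : Finset ι, if T.Nonempty ∧ T ⊆ A then
        (if j ∈ T then c (T.card - 1) else c T.card) * F T ^ 2 else 0 := by
  have h1 : F {j} ^ 2 = ∑ T : Finset ι, if T = ∅ then F (insert j T) ^ 2 else 0 := by
    rw [Finset.sum_ite_eq' Finset.univ ∅ (fun T : Finset ι => F (insert j T) ^ 2)]
    simp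
  have h0 := sum_split' j (fun T : Finset ι => if T.Nonempty ∧ T ⊆ A then
        (if j ∈ T then c (T.card - 1) else c T.card) * F T ^ 2 else 0)
  rw [h1, h0]
  unfold GA
  rw [← Finset.sum_add_distrib, Finset.sum_div, ← Finset.sum_add_distrib]
  refine Finset.sum_congr rfl fun T _ => ?_
  by_cases hjT : j ∈ T
  · have h2 : ¬ (T.Nonempty ∧ T ⊆ A.erase j) := by
      rintro ⟨_, h⟩
      have := h hjT
      simp at this
    have h3 : T ≠ ∅ := by rintro rfl; simp at hjT
    simp [h2, h3, hjT]
  · have e1 : T ⊆ A.erase j ↔ T ⊆ A := by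
      constructor
      · intro h; exact h.trans (Finset.erase_subset _ _)
      · intro h x hx
        rw [Finset.mem_erase]
        exact ⟨fun hxj => hjT (hxj ▸ hx), h hx⟩
    have e2 : insert j T ⊆ A ↔ T ⊆ A := by
      rw [Finset.insert_subset_iff]; simp [hj]
    rw [ht T hjT, hf T hjT]
    simp only [e1, e2, hjT, if_false, Finset.mem_insert_self, if_true, Finset.insert_nonempty,
      true_and, Finset.card_insert_of_notMem hjT, Nat.add_sub_cancel]
    by_cases hT : T = ∅
    · subst hT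
      simp [hc]
    · have hT' : T.Nonempty := Finset.nonempty_iff_ne_empty.2 hT
      simp only [hT, if_false, hT', true_and, add_zero]
      by_cases hTA : T ⊆ A
      · simp only [hTA, if_true]; ring
      · simp [hTA]

theorem main (c c' : ℕ → ℝ) (hc : c 0 = 1) (n : ℕ) (A : Finset ι) (hA : A.card ≤ n + 1)
    (hA2 : ∀ t : ℕ, 1 ≤ t → t ≤ n + 1 →
      ((n : ℝ) + 1) * c' t = ((n : ℝ) + 1 - t) * c t + t * c (t - 1))
    (F : Finset ι → ℝ) (Ft Ff : ι → Finset ι → ℝ)
    (ht : ∀ j, ∀ T, j ∉ T → Ft j T = F T + F (insert j T))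
    (hf : ∀ j, ∀ T, j ∉ T → Ff j T = F T - F (insert j T)) :
    ((n : ℝ) + 1) * GA c' A F = ((n : ℝ) + 1 - A.card) * GA c A F +
      ∑ j ∈ A, ((GA c (A.erase j) (Ft j) + GA c (A.erase j) (Ff j)) / 2 + F {j} ^ 2) := by
  rw [Finset.sum_congr rfl fun j hj => step c hc A j hj F (Ft j) (Ff j) (ht j) (hf j),
    Finset.sum_comm]
  unfold GA
  rw [Finset.mul_sum, Finset.mul_sum, ← Finset.sum_add_distrib]
  refine Finset.sum_congr rfl fun T _ => ?_
  by_cases h : T.Nonempty ∧ T ⊆ A
  · simp only [h, and_self, if_true]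
    have h1 : 1 ≤ T.card := h.1.card_pos
    have h2 : T.card ≤ A.card := Finset.card_le_card h.2
    rw [← Finset.sum_mul, Finset.sum_ite]
    simp only [Finset.sum_const, nsmul_eq_mul]
    have e1 : (A.filter (fun j => j ∈ T)) = T := by
      ext x; simp only [Finset.mem_filter]
      exact ⟨fun hx => hx.2, fun hx => ⟨h.2 hx, hx⟩⟩
    have e2 : (A.filter (fun j => j ∉ T)).card = A.card - T.card := by
      have := Finset.card_filter_add_card_filter_not (s := A) (fun j => j ∈ T)
      rw [e1] at this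
      omega
    rw [e1, e2, Nat.cast_sub h2, ← mul_assoc, hA2 T.card h1 (h2.trans hA)]
    ring
  · simp [h]

end Pool.Agent.H217R3.SAC

namespace Pool.Agent.H889R3.SA

open Finset Pool.Agent.H572R2 Pool.Agent.H572R4.QA

theorem taskC (hA2 : TaskA2) (hB1 : TaskB1) : TaskC := by
  intro N f n m A hmn hA
  have h := Pool.Agent.H217R3.SAC.main (cc n m) (cc (n + 1) (m + 1)) (by simp [cc]) n A hA
    (fun t h1 h2 => hA2 n m t hmn h1 h2) (fh f) (fun j => fh (rs j true f))
    (fun j => fh (rs j false f)) (fun j T hT => (hB1 N f j T hT).1)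
    (fun j T hT => (hB1 N f j T hT).2)
  exact h

end Pool.Agent.H889R3.SA
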